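import Pool.Agent.K4H33.ZO.Main

/-!
# MP_bde085_nt: a zero-one law, the bound for very few random words implies it for all matrices

A word of length `n` in the letters `T = (1 1; 0 1)` and `L = (1 0; 1 1)` is closed for the level `N`
if its product lies in `Γ₀(N)`. (The words of length `n` are the vertices of the `n`-th level of the
Stern-Brocot tree.)

The following statements are equivalent.

1. There are constants `κ`, `C` such that the coordinates `m(γ)`, `n(γ)` are at most `C N ^ κ` for
   all newforms of all levels `N` and all `γ ∈ Γ₀(N)` with entries at most `N ^ 2` (this is the
   question Q1, which is known to be equivalent to Szpiro's conjecture).
2. There are `κ₀`, `κ`, `C` such that for every newform of every level `N` there is a length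
   `n ≥ N ^ (4 κ₀ + 40)` for which at least the proportion `N ^ (-κ₀)` of the closed words of length
   `n` satisfies the bound `C N ^ κ`.
3. For every `B` there are `κ`, `C` such that all closed words of length at most `N ^ B` satisfy the
   bound `C N ^ κ`.

So a bound for a polynomially small proportion of the closed words already decides the question:
either almost all closed words violate the bound or none does. The reason is a theorem without any
hypothesis (the second part): for every newform of level `N ≥ 2` and every `κ₀`, if
`n ≥ N ^ (4 κ₀ + 40)` then fewer than the proportion `N ^ (-κ₀)` of the closed words of length `n`
have a coordinate which is smaller than an eighth of the largest value of this coordinate at the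
matrices in `Γ₀(N)` with lower left entry at most `N ^ 2`.

No hypothesis is made: the series, the Shimura map and the lattice are those of the problem. The
proof shows that the averages over the words of length `n` in the representations induced from the
characters `exp(2 π i θ m(γ))` of `Γ₀(N)` decay, for many `θ`.
-/

namespace Pool.Agent.Results.MP_bde085_nt.SparseRandomWords

open Pool.Agent.TH133.SH Pool.Agent.K4H33.ZO

/-- **Zero-one law for the polynomial bound on random words, and anti-concentration of the
coordinates of the Shimura map.** -/
theorem result : List.TFAE [EntriesAtMost 2, SparseWords, AllWords] ∧ AntiConcentration :=
  ⟨words_tfae, anti⟩

end Pool.Agent.Results.MP_bde085_nt.SparseRandomWords
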