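import Pool.Agent.K4H24.SZ.Main

/-!
# MP_bde085_nt: semistable levels, cusps with denominators at most `√N`

Let `f` be a newform of squarefree level `N` (the isogeny classes of semistable elliptic curves) and
let `P(r) = lim F(r + i y)`, `y → 0`, be the value of `F` at the rational number `r`, the period of
`2 π i f(z) dz` from `i ∞` to `r`. The following statements are equivalent; all of them are about
the newforms of squarefree level.

1. There are `κ`, `C` such that the coordinates `m(γ)`, `n(γ)` are at most `C N ^ κ` for all
   `γ ∈ Γ₀(N)` with entries at most `N ^ 2` (question Q1 for squarefree levels).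
2. There are `κ`, `C` such that the real coordinates of `P(r)` in the basis `Ω₁`, `Ω₂` are at most
   `C N ^ κ` for all rational numbers `r` with denominator at most `√N`.
3. There are `κ`, `C` such that the coordinates of `P(r)` are at most `C N ^ κ (1 + log c)` for all
   rational numbers `r`, where `c` is the denominator of `r`.
4. The same as 1 with entries at most `N ^ A`, for every `A`.
5. There are `κ`, `C` such that the coordinates `m(γ)`, `n(γ)` are at most `C N ^ κ (1 + log |c|)` for
   all `γ ∈ Γ₀(N)` with lower left entry `c ≠ 0`.

Moreover, for each newform of squarefree level `N` the values `P(r)` exist, and if `L` is a real linear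
function on the complex numbers with `|L(P(r))| ≤ X` for all `r` with denominator at most `√N`, then
`|L(H(γ))| ≤ 2 X (1 + log₂ |c|)` for all `γ ∈ Γ₀(N)` with lower left entry `c ≠ 0` and
`|L(P(r))| ≤ 2 X (1 + log₂ c)` for all rational numbers `r` with denominator `c`.

The series, the Shimura map and the lattice are those of the problem. `IsSemistable` consists of the
conditions for a newform (`IsNewform`), the condition that `N` is squarefree, and the equations
`f | W_Q = ± f` for `Q ∣ N`, which hold for all newforms by Atkin and Lehner.

Proof. By Thue's lemma and the Atkin-Lehner involutions the difference of the values of `F` at two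
neighbours in the Farey graph is, up to sign, the difference of the values at two cusps with
denominators at most `√N`. Conversely, the relation `a(ℓ) F(τ) = ∑ F((τ + j) / ℓ) + F(ℓ τ)` for a prime
`ℓ ∣ N + 1` writes `(ℓ + 1 - a(ℓ)) P(r)` as a sum of `ℓ + 1` values of the Shimura map on matrices with
polynomially bounded lower left entries, and `|a(ℓ)| < ℓ + 1`.
-/

namespace Pool.Agent.Results.MP_bde085_nt.SqrtDenominators

open Pool.Agent.TH133.SH Pool.Agent.K4H24.SZ

/-- **For newforms of squarefree level `N` the polynomial bound for the Shimura map on matrices with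
entries at most `N ^ 2` is equivalent to the polynomial bound for the coordinates of the periods
from `i ∞` to the rational numbers with denominators at most `√N`.** -/
theorem result :
    (∀ N : ℕ, 1 ≤ N → ∀ a : ℕ → ℤ, IsSemistable N a →
      (∀ r : ℚ, ∃ w : ℂ, IsValue a r w) ∧
      ∀ (L : ℂ →ₗ[ℝ] ℝ) (X : ℝ), (∀ r : ℚ, r.den ^ 2 ≤ N → ∀ w : ℂ, IsValue a r w → |L w| ≤ X) →
        (∀ p q r s : ℤ, p * s - q * r = 1 → (N : ℤ) ∣ r → r ≠ 0 →
          |L (Hval a p q r s)| ≤ 2 * X * (Nat.log 2 r.natAbs + 1)) ∧
        (∀ r : ℚ, ∀ w : ℂ, IsValue a r w → |L w| ≤ 2 * X * (Nat.log 2 r.den + 1))) ∧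
    List.TFAE [SemistableEntries 2, SqrtDenominators, AllDenominators,
      ∀ A : ℕ, SemistableEntries A, SemistableLog] :=
  ⟨fun _ hN _ ha => ⟨exists_value hN ha, fun _ _ h => inequality hN ha h⟩, tfae⟩

end Pool.Agent.Results.MP_bde085_nt.SqrtDenominators
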