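import Pool.Agent.K4H33.ZO.ThinMain

/-!
# MP_bde085_nt: thin semigroups and congruence conditions suffice

Let `s i` be finitely many matrices which generate `SL₂(ℤ)` as a GROUP, and let `Γ' N` be subgroups of
`Γ₀(N)` whose index in `SL₂(ℤ)` is at most `N ^ A`. The following are equivalent.

1. There are constants `κ`, `C` such that the coordinates `m(γ)`, `n(γ)` are at most `C N ^ κ` for
   all newforms of all levels `N` and all `γ ∈ Γ₀(N)` with entries at most `N ^ 2` (this is the
   question Q1, which is known to be equivalent to Szpiro's conjecture).
2. There are constants `κ`, `C` such that the same bound holds for all newforms of all levels `N`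
   and all `γ ∈ Γ' N` in the SEMIGROUP generated by the `s i` which are products of at most `3 N ^ A`
   of them (`WordTest`).

For example, `s` can be `(1 1; 1 2)`, `(1 2; 1 3)`: these matrices generate freely a thin semigroup,
the columns of its elements are given by continued fractions with partial quotients `1` and `2`, of
which every second one is `1`. And `Γ' N` can be the principal congruence subgroup of the
`γ ≡ 1` modulo `N ^ j`, `j` arbitrary, with `A = 4 j` (second part). So the question Q1 may be
restricted to a thin semigroup and, at the same time, to arbitrary congruence classes of subgroups.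

No hypothesis is made: the series, the Shimura map and the lattice are those of the problem.
-/

namespace Pool.Agent.Results.MP_bde085_nt.ThinSemigroups

open Pool.Agent.TH133.SH Pool.Agent.K4H33.ZO MatrixGroups

/-- **The polynomial bound for the Shimura map can be tested on any finitely generated semigroup which
generates the modular group, and on subgroups of polynomial index.** -/
theorem result :
    (∀ (ι : Type) [Fintype ι] (s : ι → SL(2, ℤ)), Subgroup.closure (Set.range s) = ⊤ →
      ∀ (Γ' : ℕ → Subgroup SL(2, ℤ)) (A : ℕ), (∀ N : ℕ, 1 ≤ N → Γ' N ≤ Gam N) →
        (∀ N : ℕ, 1 ≤ N → (Γ' N).index ≠ 0 ∧ (Γ' N).index ≤ N ^ A) →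
          (EntriesAtMost 2 ↔ WordTest s Γ' A)) ∧
    ∀ j : ℕ, 1 ≤ j → (EntriesAtMost 2 ↔ WordTest thin (principal j) (4 * j)) :=
  ⟨fun _ _ _ hs _ _ hΓ hidx => entries_iff_test hs hΓ hidx,
    fun _ hj => entries_iff_test thin_closure (fun _ _ => principal_le hj)
      (fun _ hN => principal_index hN)⟩

end Pool.Agent.Results.MP_bde085_nt.ThinSemigroups
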