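import Pool.Agent.K4H67.TV.Main

/-!
# MP_bde085_nt: the question is equivalent to a bound for twisted central values of small conductor

For a newform `f` of level `N` as in the problem and a primitive Dirichlet character `χ` whose
conductor `d` is prime to `N`, let `L(f, χ, 1)` be the limit of `∑ χ(k) a(k) / k e ^ (-2 π k y)` for
`y → 0+` (the central value of the `L`-function of `f` twisted by `χ`). The first part of the theorem
says that this limit exists. The second part says that the following statements are equivalent
(`ω(N)` is the number of primes which divide `N`).

1. There are constants `κ`, `C` such that the coordinates `m(γ)`, `n(γ)` are at most `C N ^ κ` for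
   all newforms of all levels `N` and all `γ ∈ Γ₀(N)` with entries at most `N ^ 2` (this is the
   question Q1, which is known to be equivalent to Szpiro's conjecture).
2. There are constants `κ`, `C` such that for all newforms of all levels `N` and all primitive `χ`
   whose conductor is prime to `N` and at most `9 * 64 ^ ω(N) * N = N ^ (1 + o(1))`, one has
   `|L(f, χ, 1)| ≤ C N ^ κ Ω₁` if `χ` is even and `|L(f, χ, 1)| ≤ C N ^ κ Im(Ω₂)` if `χ` is odd.
3. The same for conductors at most `N ^ A`, for every `A` (with constants which depend on `A`).
4. There are constants `κ`, `C` such that for all newforms of all levels `N` and ALL primitive `χ`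
   with conductor `d` prime to `N` the same holds with the additional factor `√d (1 + log d)`.

No hypothesis is made: the series, the Shimura map and the lattice are those of the problem. The proof
of `2 → 1` uses the Hecke operators to treat imprimitive characters and the strict inequality
`a(ℓ) < ℓ + 1`, which is proved as well, is used for `L(f, 1)`.
-/

namespace Pool.Agent.Results.MP_bde085_nt.TwistedCentralValues

open Pool.Agent.TH133.SH Pool.Agent.K4H67.TV

/-- **The polynomial bound for the Shimura map on small matrices is equivalent to a polynomial bound
for the central values `L(f, χ, 1)`, divided by the periods, where the conductor of `χ` is prime to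
`N` and at most `N ^ (1 + o(1))`.** -/
theorem result :
    (∀ (N : ℕ) (a : ℕ → ℤ), 1 ≤ N → IsNewform N a → ∀ d : ℕ, 1 ≤ d → d.Coprime N →
      ∀ χ : DirichletCharacter ℂ d, χ.IsPrimitive → ∃ L : ℂ, HasLVal a χ L) ∧
    List.TFAE [EntriesAtMost 2, ValueBound condBound, ∀ A : ℕ, ValueBound (fun N => N ^ A),
      ValueGrowth] :=
  ⟨fun _ _ hN ha _ hd hdN _ hχ => exists_lval hN ha.toIsForm hd hdN hχ, main⟩

end Pool.Agent.Results.MP_bde085_nt.TwistedCentralValues
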